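import Mathlib

/-!
# Etale motivic cohomology of arithmetic schemes in the weights `n ≥ dim X`: the setting

The schemes are Mathlib's schemes. The groups `T.H X n i = Hⁱ(X_et, ℤ(n))` are a datum; their known
properties are listed in `Cohomology.Standard`.
-/

set_option autoImplicit false

open CategoryTheory CategoryTheory.Limits AlgebraicGeometry

namespace Pool.Agent.Helper75.Arith

universe v

/-! ## Schemes -/

/-- the projective space `ℙ^N = Proj ℤ[x₀, …, x_N]` over `ℤ` -/
noncomputable def space (N : ℕ) : Scheme.{0} :=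
  letI := MvPolynomial.gradedAlgebra (σ := Fin (N + 1)) (R := ℤ)
  Proj (MvPolynomial.homogeneousSubmodule (Fin (N + 1)) ℤ)

/-- the product `ℙ^N × X` over `Spec ℤ`, which is the final object of the category of schemes -/
noncomputable def product (N : ℕ) (X : Scheme.{0}) : Scheme.{0} :=
  pullback (terminal.from (space N)) (terminal.from X)

/-- `X` is a regular, integral (equivalently: regular and connected) scheme, proper over `Spec ℤ` and of
Krull dimension `d` -/
structure Arithmetic (X : Scheme.{0}) (d : ℕ) : Prop where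
  integral : IsIntegral X
  regular : ∀ x : X, IsRegularLocalRing (X.presheaf.stalk x)
  proper : IsProper (terminal.from X)
  dim : topologicalKrullDim X = d

/-- `X` is projective over `Spec ℤ` -/
def Projective (X : Scheme.{0}) : Prop :=
  ∃ (N : ℕ) (i : X ⟶ space N), IsClosedImmersion i

/-- there is a dominant rational map from `X'` to `X` (over `Spec ℤ`, as every morphism of schemes) -/
def Dominates (X' X : Scheme.{0}) : Prop :=
  ∃ φ : Scheme.RationalMap X' X, φ.IsDominant

/-- the sheaf of ideals is invertible: locally it is generated by one nonzerodivisor -/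
def Invertible {Y : Scheme.{0}} (I : Y.IdealSheafData) : Prop :=
  ∀ y : Y, ∃ U : Y.affineOpens, y ∈ U.1 ∧ ∃ t ∈ nonZeroDivisors Γ(Y, U.1), I.ideal U = Ideal.span {t}

/-- `f : Y ⟶ X` is the blow-up of `X` along the closed subscheme `i : Z ⟶ X` (universal property) -/
structure IsBlowup {X Y Z : Scheme.{0}} (i : Z ⟶ X) (f : Y ⟶ X) : Prop where
  invertible : Invertible ((Scheme.Hom.ker i).comap f)
  universal : ∀ (W : Scheme.{0}) (g : W ⟶ X), Invertible ((Scheme.Hom.ker i).comap g) →
    ∃! h : W ⟶ Y, h ≫ f = g

/-- `Tower d Y X`: `Y` is obtained from `X` by a finite sequence of blow-ups along regular integral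
centres of dimension less than `d`; the schemes of the sequence are regular, integral, proper over
`Spec ℤ` and of dimension `d` -/
inductive Tower (d : ℕ) : Scheme.{0} → Scheme.{0} → Prop
  | refl (X : Scheme.{0}) : Tower d X X
  | step {X Y Z Y' : Scheme.{0}} {e : ℕ} (i : Z ⟶ Y) (f : Y' ⟶ Y) : Tower d Y X → IsClosedImmersion i →
      Arithmetic Z e → e < d → IsBlowup i f → Arithmetic Y' d → Tower d Y' X

/-- The two facts of the geometry of schemes which are used.

`product`: if `X` is regular, integral, proper over `ℤ`, so is `ℙ^N × X`, and its dimension is `N + dim X`.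

`elimination` (elimination of indeterminacy in dimension at most three: Cossart and Piltant, after
Zariski, Abhyankar and Lipman): a dominant rational map `X' ⇢ X` between such schemes of the same
dimension `d ≤ 3` becomes a surjective morphism `Y ⟶ X`, with `Y` projective, after finitely many blow-ups of
`X'` in regular integral centres. (By Chow's lemma there are an ideal on `X'` with projective blow-up and
a projective integral scheme `X₁ ⊆ ℙ^N` with a birational morphism `X₁ ⟶ X`. The map `X' ⇢ X₁` is given by
`N + 1` sections of a line bundle on `X'`. The product of the ideal they generate and the first ideal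
becomes invertible after such blow-ups. The morphism `Y ⟶ X` is dominant and proper, so surjective.) -/
structure Geometry : Prop where
  product : ∀ {X : Scheme.{0}} {d : ℕ}, Arithmetic X d → ∀ N : ℕ, Arithmetic (product N X) (d + N)
  elimination : ∀ {X' X : Scheme.{0}} {d : ℕ}, d ≤ 3 → Arithmetic X' d → Arithmetic X d → Dominates X' X →
    ∃ Y, Tower d Y X' ∧ Projective Y ∧ ∃ g : Y ⟶ X, Surjective g

/-! ## Cohomology -/

/-- Data: the groups `H X n i = Hⁱ(X_et, ℤ(n))` -/
structure Cohomology where
  H : Scheme.{0} → ℕ → ℤ → Type v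
  [group : ∀ X n i, AddCommGroup (H X n i)]

attribute [instance] Cohomology.group

variable (T : Cohomology.{v})

/-- The conjecture for the group `Hⁱ(X_et, ℤ(n))`: it is zero if `i < 0` (Beilinson-Soule) and finitely
generated if `0 ≤ i`. It is only used for `n ≥ dim X` and `i ≤ 2 n`. For `n = dim X` and `0 ≤ i ≤ 2 n` it is Q1. -/
def Cohomology.Expected (X : Scheme.{0}) (n : ℕ) (i : ℤ) : Prop :=
  (i < 0 → Subsingleton (T.H X n i)) ∧ (0 ≤ i → AddGroup.FG (T.H X n i))

/-- The known properties of the groups which are used. -/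
structure Cohomology.Standard : Prop where
  /-- a surjective morphism `Y ⟶ X` of such schemes of the same dimension is generically finite, and
  push-forward after pull-back is the multiplication by the degree `m` of the function fields -/
  transfer : ∀ {Y X : Scheme.{0}} {d : ℕ} (f : Y ⟶ X), Arithmetic Y d → Projective Y → Arithmetic X d →
    Surjective f → ∃ m : ℕ, 0 < m ∧ ∀ n ≥ d, ∀ i : ℤ,
      ∃ (pull : T.H X n i →+ T.H Y n i) (push : T.H Y n i →+ T.H X n i), ∀ x, push (pull x) = m • x
  /-- the kernel of the multiplication by `m` is finite, because `Hⁱ⁻¹(X_et, ℤ/m(n))` is finite -/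
  torsion : ∀ {X : Scheme.{0}} {d : ℕ}, Arithmetic X d → ∀ n ≥ d, ∀ (i : ℤ) (m : ℕ), 0 < m →
    {x : T.H X n i | m • x = 0}.Finite
  /-- in negative degrees the groups are the rational motivic cohomology groups, because
  `Hⁱ(X_et, ℤ/m(n)) = 0` for `i < 0` -/
  rational : ∀ {X : Scheme.{0}} {d : ℕ}, Arithmetic X d → ∀ n ≥ d, ∀ i < 0, ∀ m : ℕ, 0 < m →
    Function.Bijective fun x : T.H X n i => m • x
  /-- the projective bundle formula `Hⁱ(ℙ^N × X, ℤ(n)) = ⊕_{0 ≤ k ≤ N} Hⁱ⁻²ᵏ(X, ℤ(n - k))` -/
  bundle : ∀ {X : Scheme.{0}} {d : ℕ}, Arithmetic X d → ∀ N : ℕ, ∀ n ≥ d + N, ∀ i : ℤ,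
    Nonempty (T.H (product N X) n i ≃+ ((k : Fin (N + 1)) → T.H X (n - k) (i - 2 * (k : ℕ))))
  /-- the blow-up formula `Hʲ(Y, ℤ(n)) = Hʲ(X, ℤ(n)) ⊕ ⊕_{1 ≤ k ≤ c - 1} Hʲ⁻²ᵏ(Z, ℤ(n - k))` for a centre `Z` of
  dimension `e` and codimension `c = d - e` (written with `k + 1` for `k`). The weights `n - k ≥ e + 1` are again at
  least the dimension of the scheme, which is why the weights `n ≥ dim` suffice everywhere. -/
  blowup : ∀ {X Y Z : Scheme.{0}} {d e : ℕ} (i : Z ⟶ X) (f : Y ⟶ X), IsClosedImmersion i →
    Arithmetic X d → Arithmetic Y d → Arithmetic Z e → e < d → IsBlowup i f → ∀ n ≥ d, ∀ j : ℤ,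
    Nonempty (T.H Y n j ≃+
      T.H X n j × ((k : Fin (d - e - 1)) → T.H Z (n - (k + 1)) (j - 2 * ((k : ℕ) + 1))))
  /-- finite fields, rings of integers and curves over finite fields -/
  curves : ∀ {X : Scheme.{0}} {d : ℕ}, Arithmetic X d → d ≤ 1 → ∀ n ≥ d, ∀ i : ℤ, i ≤ 2 * n →
    T.Expected X n i

end Pool.Agent.Helper75.Arith
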