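import Pool.Agent.Helper75.Arith.Defs

/-! # The conjecture in the weights `n ≥ dim X`, transfers, bundles and blow-ups -/

set_option autoImplicit false

open CategoryTheory CategoryTheory.Limits AlgebraicGeometry

namespace Pool.Agent.Helper75.Arith

universe v

/-! ## Finitely generated groups -/

/-- a finitely generated rational vector space is zero -/
theorem subsingleton_of_rational {A : Type v} [AddCommGroup A] [Module.Finite ℤ A]
    (h : ∀ m : ℕ, 0 < m → Function.Bijective fun x : A => m • x) : Subsingleton A := by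
  have h1 : (⊤ : Submodule ℤ A) ≤ (Ideal.span {(2 : ℤ)}) • (⊤ : Submodule ℤ A) := by
    intro x _
    obtain ⟨y, hy⟩ := (h 2 (by norm_num)).2 x
    have : x = (2 : ℤ) • y := by rw [← hy]; norm_cast
    rw [this]
    exact Submodule.smul_mem_smul (Ideal.mem_span_singleton_self _) trivial
  obtain ⟨r, hr, hr0⟩ := Submodule.exists_sub_one_mem_and_smul_eq_zero_of_fg_of_le_smul
    (Ideal.span {(2 : ℤ)}) (⊤ : Submodule ℤ A) Module.Finite.fg_top h1
  have hr1 : r ≠ 0 := by
    rintro rfl
    rw [Ideal.mem_span_singleton] at hr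
    omega
  constructor
  intro x y
  have key : ∀ x : A, x = 0 := by
    intro x
    apply (h r.natAbs (Int.natAbs_pos.mpr hr1)).1
    have h2 : r • x = 0 := hr0 x trivial
    change r.natAbs • x = r.natAbs • (0 : A)
    rw [smul_zero]
    rcases Int.natAbs_eq r with h3 | h3
    · rw [h3, natCast_zsmul] at h2; exact h2
    · rw [h3, neg_smul, natCast_zsmul, neg_eq_zero] at h2; exact h2
  rw [key x, key y]

/-- the transfer argument -/
theorem finite_of_transfer {A B : Type v} [AddCommGroup A] [AddCommGroup B] [Module.Finite ℤ B]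
    {m : ℕ} (p : A →+ B) (q : B →+ A) (h : ∀ x, q (p x) = m • x) (ht : {x : A | m • x = 0}.Finite) :
    Module.Finite ℤ A := by
  let p' := p.toIntLinearMap
  have h1 : (LinearMap.ker p' : Set A) ⊆ {x : A | m • x = 0} := by
    intro x hx
    have hx0 : p x = 0 := hx
    change m • x = 0
    rw [← h x, hx0, map_zero]
  have h2 : (LinearMap.ker p').FG := by
    have hf : (LinearMap.ker p' : Set A).Finite := ht.subset h1
    exact ⟨hf.toFinset, by simp⟩
  have h3 : (LinearMap.range p').FG := IsNoetherian.noetherian _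
  exact ⟨Submodule.fg_of_fg_map_of_fg_inf_ker p' (by rwa [← LinearMap.range_eq_map])
    (by rwa [top_inf_eq])⟩

variable {T : Cohomology.{v}}

/-- the conjecture is finite generation in all degrees -/
theorem expected_iff (hT : T.Standard) {X : Scheme.{0}} {d : ℕ} (hX : Arithmetic X d) {n : ℕ} (hn : d ≤ n) (i : ℤ) :
    T.Expected X n i ↔ Module.Finite ℤ (T.H X n i) := by
  constructor
  · intro h
    rcases lt_or_ge i 0 with h0 | h0
    · have := h.1 h0
      exact Module.Finite.of_finite
    · exact Module.Finite.iff_addGroup_fg.2 (h.2 h0)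
  · intro h
    exact ⟨fun h0 => subsingleton_of_rational (hT.rational hX n hn i h0),
      fun _ => Module.Finite.iff_addGroup_fg.1 h⟩

/-- images under surjective morphisms of the same dimension -/
theorem expected_of_surjective (hT : T.Standard) {Y X : Scheme.{0}} {d : ℕ} (f : Y ⟶ X)
    (hY : Arithmetic Y d) (hYp : Projective Y) (hX : Arithmetic X d) (hf : Surjective f) {n : ℕ}
    (hn : d ≤ n) {i : ℤ} (h : T.Expected Y n i) : T.Expected X n i := by
  rw [expected_iff hT hY hn] at h
  rw [expected_iff hT hX hn]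
  obtain ⟨m, hm, hmt⟩ := hT.transfer f hY hYp hX hf
  obtain ⟨p, q, hpq⟩ := hmt n hn i
  exact finite_of_transfer p q hpq (hT.torsion hX n hn i m hm)

/-- products with projective spaces -/
theorem expected_product_iff (hT : T.Standard) {X : Scheme.{0}} {d N : ℕ} (hX : Arithmetic X d)
    (hP : Arithmetic (product N X) (d + N)) {n : ℕ} (hn : d + N ≤ n) (i : ℤ) :
    T.Expected (product N X) n i ↔ ∀ k ≤ N, T.Expected X (n - k) (i - 2 * (k : ℤ)) := by
  rw [expected_iff hT hP hn]
  obtain ⟨E⟩ := hT.bundle hX N n hn i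
  constructor
  · intro h k hk
    have h2 : Module.Finite ℤ ((k : Fin (N + 1)) → T.H X (n - k) (i - 2 * (k : ℕ))) :=
      Module.Finite.equiv E.toIntLinearEquiv
    have h3 : Function.Surjective (Pi.evalAddMonoidHom
        (fun k : Fin (N + 1) => T.H X (n - k) (i - 2 * (k : ℕ))) ⟨k, by omega⟩).toIntLinearMap :=
      Function.surjective_eval _
    exact (expected_iff hT hX (by omega) _).2 (Module.Finite.of_surjective _ h3)
  · intro h
    have h1 : ∀ k : Fin (N + 1), Module.Finite ℤ (T.H X (n - k) (i - 2 * (k : ℕ))) := by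
      intro k
      have hk := k.2
      exact (expected_iff hT hX (by omega) _).1 (h k (by omega))
    exact Module.Finite.equiv E.symm.toIntLinearEquiv

/-- blow-ups -/
theorem expected_blowup (hT : T.Standard) {X Y Z : Scheme.{0}} {d e : ℕ} (i : Z ⟶ X) (f : Y ⟶ X)
    (hi : IsClosedImmersion i) (hX : Arithmetic X d) (hY : Arithmetic Y d) (hZ : Arithmetic Z e)
    (he : e < d) (hf : IsBlowup i f) {n : ℕ} (hn : d ≤ n) {j : ℤ} (h : T.Expected X n j)
    (hc : ∀ k : ℕ, k + 1 < d - e → T.Expected Z (n - (k + 1)) (j - 2 * ((k : ℤ) + 1))) :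
    T.Expected Y n j := by
  rw [expected_iff hT hX hn] at h
  rw [expected_iff hT hY hn]
  obtain ⟨E⟩ := hT.blowup i f hi hX hY hZ he hf n hn j
  have h2 : ∀ k : Fin (d - e - 1), Module.Finite ℤ (T.H Z (n - (k + 1)) (j - 2 * ((k : ℕ) + 1))) := by
    intro k
    have hk := k.2
    exact (expected_iff hT hZ (by omega) _).1 (hc k (by omega))
  exact Module.Finite.equiv E.symm.toIntLinearEquiv

/-- towers of blow-ups in dimension at most three -/
theorem expected_tower (hT : T.Standard) {X Y : Scheme.{0}} {d : ℕ} (hd : d ≤ 3) (hX : Arithmetic X d)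
    {n : ℕ} (hn : d ≤ n) {j : ℤ} (hj : j ≤ 2 * n) (h : T.Expected X n j) (t : Tower d Y X) :
    Arithmetic Y d ∧ T.Expected Y n j := by
  induction t with
  | refl X => exact ⟨hX, h⟩
  | step i f _ hi hZ he hf hY' ih =>
    obtain ⟨h1, h2⟩ := ih hX h
    refine ⟨hY', expected_blowup hT i f hi h1 hY' hZ he hf hn h2 fun k hk => ?_⟩
    exact hT.curves hZ (by omega) _ (by omega) _ (by rw [Nat.cast_sub (by omega)]; push_cast; omega)

/-- dominant rational maps in dimension at most three -/
theorem expected_of_dominates (hT : T.Standard) (hG : Geometry) {X' X : Scheme.{0}} {d : ℕ}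
    (hd : d ≤ 3) (hX' : Arithmetic X' d) (hX : Arithmetic X d) (hdom : Dominates X' X)
    {n : ℕ} (hn : d ≤ n) {i : ℤ} (hi : i ≤ 2 * n) (h : T.Expected X' n i) : T.Expected X n i := by
  obtain ⟨Y, t, hp, g, hg⟩ := hG.elimination hd hX' hX hdom
  obtain ⟨h1, h2⟩ := expected_tower hT hd hX' hn hi h t
  exact expected_of_surjective hT g h1 hp hX hg hn h2

/-- every scheme dominates itself -/
theorem Dominates.refl (X : Scheme.{0}) : Dominates X X :=
  ⟨(𝟙 X : X ⟶ X).toPartialMap.toRationalMap, inferInstance⟩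

end Pool.Agent.Helper75.Arith
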